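import Pool.Agent.Helper1_NP9.Stmts

/-!
Squad NP9, module DC: completeness of the relation `D F I` (Matiyasevich, Robinson).
-/

set_option autoImplicit false

namespace Pool.Agent.NP9.H26

open Pool.Agent.NP9

lemma y_succ (a : ℤ) (n : ℕ) : Y a (n + 2) = 2 * a * Y a (n + 1) - Y a n := rfl

/-- congruence of the sequences -/
lemma sub_dvd_y (a b : ℤ) : ∀ n : ℕ, (b - a) ∣ Y b n - Y a n := by
  intro n
  induction n using Nat.twoStepInduction with
  | zero => simp [Y]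
  | one => simp [Y]
  | more n ih0 ih1 =>
    rw [y_succ, y_succ]
    have h : 2 * b * Y b (n + 1) - Y b n - (2 * a * Y a (n + 1) - Y a n) =
        2 * b * (Y b (n + 1) - Y a (n + 1)) - (Y b n - Y a n) + (b - a) * (2 * Y a (n + 1)) := by
      ring
    rw [h]
    exact dvd_add (dvd_sub (Dvd.dvd.mul_left ih1 _) ih0) (Dvd.intro _ rfl)

/-- DC. -/
theorem dc (yPell : YPellStmt) (ySq : YSqStmt) (yMod : YModStmt) (yBd : YBdStmt) :
    DfiComplStmt := by
  intro a B ha hB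
  obtain ⟨A, rfl⟩ := Int.eq_ofNat_of_zero_le (show (0 : ℤ) ≤ a by omega)
  have hA : 1 < A := by omega
  set C : ℤ := Y (A : ℤ) B with hC
  -- monotonicity
  have mono : ∀ (b : ℤ), 1 ≤ b → ∀ n k : ℕ, Y b n ≤ Y b (n + k) := by
    intro b hb n k
    induction k with
    | zero => exact le_rfl
    | succ k ih => exact ih.trans (yBd b (n + k) hb).2.2
  have hge : ∀ (b : ℤ), 2 ≤ b → ∀ n : ℕ, (n : ℤ) ≤ Y b n ∧ 1 ≤ Y b (n + 1) - Y b n := by
    intro b hb n
    induction n with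
    | zero => simp [Y]
    | succ n ih =>
      obtain ⟨h1, h2⟩ := ih
      refine ⟨by push_cast; linarith, ?_⟩
      rw [show n + 1 + 1 = n + 2 from rfl, y_succ]
      have h3 : 0 ≤ Y b n := by
        have : (0 : ℤ) ≤ n := by positivity
        linarith
      nlinarith
  have hC1 : (B : ℤ) ≤ C := (hge A ha B).1
  have hBpos : (2 : ℤ) ≤ B := by exact_mod_cast hB
  -- the number E
  have hCP : C = (Pell.yn hA B : ℤ) := yPell A hA B
  obtain ⟨N, hN⟩ : ∃ N : ℕ, N = B + B := ⟨_, rfl⟩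
  have hyN : Pell.yn hA N = 2 * (Pell.xn hA B * Pell.yn hA B) := by
    rw [hN, Pell.yn_add]
    ring
  have hDsq : ((A : ℤ) ^ 2 - 1) * C ^ 2 + 1 = (Pell.xn hA B : ℤ) ^ 2 := by
    have h := Pell.pell_eqz hA B
    rw [Pell.dz_val] at h
    have h4 : Pell.xz hA B = (Pell.xn hA B : ℤ) := rfl
    have h5 : Pell.yz hA B = (Pell.yn hA B : ℤ) := rfl
    have h6 : Pell.az A = (A : ℤ) := rfl
    rw [h4, h5, h6] at h
    rw [hCP]
    linarith
  have hD : dD (A : ℤ) C = (Pell.xn hA B : ℤ) ^ 2 := hDsq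
  obtain ⟨E, hE⟩ : ∃ E : ℤ, E = Y (A : ℤ) (N * Pell.yn hA N) := ⟨_, rfl⟩
  have hEdvd : 2 * C ^ 2 * dD (A : ℤ) C ∣ E := by
    have h1 : ((Pell.yn hA N * Pell.yn hA N : ℕ) : ℤ) ∣ ((Pell.yn hA (N * Pell.yn hA N) : ℕ) : ℤ) :=
      Int.natCast_dvd_natCast.2 (Pell.ysq_dvd_yy hA N)
    rw [← yPell A hA, ← hE] at h1
    refine Dvd.dvd.trans ?_ h1
    refine ⟨2, ?_⟩
    rw [hyN, hD, hCP]
    push_cast
    ring
  have hEpos : 0 < E := by
    have h1 : 0 < Pell.yn hA N := by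
      have h2 := (hge A ha N).1
      rw [yPell A hA] at h2
      have h3 : (N : ℤ) = B + B := by rw [hN]; push_cast; ring
      have h4 : (0 : ℤ) < (Pell.yn hA N : ℤ) := by linarith
      exact_mod_cast h4
    have h5 := (hge A ha (N * Pell.yn hA N)).1
    have h6 : 0 < N * Pell.yn hA N := Nat.mul_pos (by omega) h1
    have h7 : (0 : ℤ) < ((N * Pell.yn hA N : ℕ) : ℤ) := by exact_mod_cast h6
    rw [hE]
    linarith
  have hCpos : 0 < C := by linarith
  have hDge : (A : ℤ) ^ 2 ≤ dD (A : ℤ) C := by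
    rw [dD]
    have h1 : (1 : ℤ) ≤ C ^ 2 := by nlinarith
    nlinarith
  have hDpos : 0 < dD (A : ℤ) C := by nlinarith
  have h2CD : 0 < 2 * C ^ 2 * dD (A : ℤ) C := by positivity
  obtain ⟨q, hq⟩ := hEdvd
  have hqpos : 0 < q := by
    by_contra hcon
    push Not at hcon
    nlinarith
  obtain ⟨x, hx⟩ := Int.eq_ofNat_of_zero_le (show (0 : ℤ) ≤ q - 1 by omega)
  have hxE : dE (A : ℤ) C (x : ℤ) = E := by
    rw [dE, hq]
    have : (x : ℤ) + 1 = q := by linarith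
    rw [this]
  set F : ℤ := dF (A : ℤ) C (x : ℤ) with hF
  have hFE : F = ((A : ℤ) ^ 2 - 1) * E ^ 2 + 1 := by rw [hF, dF, hxE]
  have hFsq : IsSquare F := by
    rw [hFE]
    exact (ySq A E ha hEpos.le).2 ⟨_, hE⟩
  set G : ℤ := dG (A : ℤ) C (x : ℤ) with hG
  have hGF : G = A + F * (F - A) := rfl
  -- F is large
  have hE2 : C ^ 2 + (A : ℤ) ^ 2 ≤ E := by
    have h1 : 1 ≤ q := by omega
    have h2 : 1 ≤ C ^ 2 := by nlinarith
    have h3 : 2 * C ^ 2 * dD (A : ℤ) C ≤ E := by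
      rw [hq]
      nlinarith
    have h4 : C ^ 2 * (A : ℤ) ^ 2 ≤ C ^ 2 * dD (A : ℤ) C := by
      apply mul_le_mul_of_nonneg_left hDge
      positivity
    have h5 : (1 : ℤ) ≤ (A : ℤ) ^ 2 := by nlinarith
    nlinarith [mul_nonneg (sub_nonneg.2 h2) (sub_nonneg.2 h5)]
  have hFbig : (A : ℤ) + C + 1 ≤ F := by
    rw [hFE]
    have h1 : (A : ℤ) ≤ (A : ℤ) ^ 2 := by nlinarith
    have h2 : C ≤ C ^ 2 := by nlinarith
    have h3 : (1 : ℤ) ≤ (A : ℤ) ^ 2 - 1 := by nlinarith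
    have h4 : E ^ 2 ≤ ((A : ℤ) ^ 2 - 1) * E ^ 2 := by nlinarith [sq_nonneg E]
    have h5 : E ≤ E ^ 2 := by nlinarith
    linarith
  have hG2 : 2 ≤ G := by
    rw [hGF]
    have h1 : 0 ≤ F - A := by linarith
    have h2 : 0 ≤ F := by linarith
    have := mul_nonneg h2 h1
    linarith
  -- congruences
  have h2CE : 2 * C ∣ E := by
    refine Dvd.dvd.trans ?_ (Dvd.intro q hq.symm)
    exact ⟨C * dD (A : ℤ) C, by ring⟩
  have hF1 : 2 * C ∣ F - 1 := by
    rw [hFE]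
    have : ((A : ℤ) ^ 2 - 1) * E ^ 2 + 1 - 1 = E * (((A : ℤ) ^ 2 - 1) * E) := by ring
    rw [this]
    exact Dvd.dvd.mul_right h2CE _
  have hG1 : 2 * C ∣ G - 1 := by
    have : G - 1 = (F - 1) * (F - A + 1) := by
      rw [hGF]
      ring
    rw [this]
    exact Dvd.dvd.mul_right hF1 _
  set H : ℤ := Y G B with hH
  set T : ℤ := C + B * F + C * F with hT
  have c1 : F ∣ H - T := by
    have h1 : F ∣ H - C := by
      have h2 := sub_dvd_y (A : ℤ) G B
      refine Dvd.dvd.trans ?_ h2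
      exact ⟨F - A, by rw [hGF]; ring⟩
    have h3 : H - T = (H - C) - F * (B + C) := by
      rw [hT]
      ring
    rw [h3]
    exact dvd_sub h1 (Dvd.intro _ rfl)
  have c2 : 2 * C ∣ H - T := by
    have h1 : 2 * C ∣ H - B := hG1.trans (yMod G B)
    have h3 : H - T = (H - B) - ((F - 1) * (B + C) + 2 * C) := by
      rw [hT]
      ring
    rw [h3]
    exact dvd_sub h1 (dvd_add (Dvd.dvd.mul_right hF1 _) dvd_rfl)
  have hcop : IsCoprime (2 * C) F := by
    obtain ⟨r, hr⟩ := hF1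
    exact ⟨-r, 1, by linarith⟩
  obtain ⟨y, hy⟩ := hcop.mul_dvd c2 c1
  -- size
  have hHT : T ≤ H := by
    have h1 : Y G 2 ≤ H := by
      have := mono G (by linarith) 2 (B - 2)
      rwa [show 2 + (B - 2) = B by omega] at this
    have h2 : Y G 2 = 2 * G := by
      have : Y G 2 = 2 * G * Y G 1 - Y G 0 := rfl
      rw [this]
      simp [Y]
    have hFpos : 0 < F := by linarith
    have h4 : F * (C + 1) ≤ F * (F - A) := by
      apply mul_le_mul_of_nonneg_left _ hFpos.le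
      linarith
    have h5 : (B : ℤ) * F ≤ C * F := mul_le_mul_of_nonneg_right hC1 hFpos.le
    rw [hT]
    rw [h2, hGF] at h1
    nlinarith
  have hFpos : 0 < F := by linarith
  have hypos : 0 ≤ y := by
    have h1 : 0 < 2 * C * F := by positivity
    by_contra hcon
    push Not at hcon
    nlinarith
  obtain ⟨y', hy'⟩ := Int.eq_ofNat_of_zero_le hypos
  refine ⟨x, y', ?_⟩
  have hHd : dH (A : ℤ) (B : ℤ) C (x : ℤ) (y' : ℤ) = H := by
    rw [dH]
    rw [hy'] at hy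
    have : H = T + 2 * C * F * (y' : ℤ) := by linarith
    rw [this, hT]
    ring
  have hI : dI (A : ℤ) (B : ℤ) C (x : ℤ) (y' : ℤ) = (G ^ 2 - 1) * H ^ 2 + 1 := by
    rw [dI, hHd]
  have hIsq : IsSquare (dI (A : ℤ) (B : ℤ) C (x : ℤ) (y' : ℤ)) := by
    rw [hI]
    have hH0 : 0 ≤ H := by
      have h1 := (hge G hG2 B).1
      have h2 : (0 : ℤ) ≤ B := by positivity
      linarith
    exact (ySq G H hG2 hH0).2 ⟨B, rfl⟩
  have hDs : IsSquare (dD (A : ℤ) C) := by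
    rw [hD]
    exact ⟨_, sq _⟩
  rw [dfi]
  exact (hDs.mul hFsq).mul hIsq

end Pool.Agent.NP9.H26
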