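import Pool.Agent.Helper1_NP9.Stmts

/-!
Squad NP9, module SEA: expansion of `Y (v + 1) c` in powers of `2 v`.
-/

set_option autoImplicit false

namespace Pool.Agent.NP9.H26

open Finset Pool.Agent.NP9

/-- the coefficient of `V ^ k` -/
def cf (c k : ℕ) : ℤ := (((c + k).choose (2 * k + 1) : ℕ) : ℤ)

lemma cf_zero (c k : ℕ) (h : c ≤ k) : cf c k = 0 := by
  rw [cf, Nat.choose_eq_zero_of_lt (by omega)]
  rfl

lemma cf_rec (c k : ℕ) : cf (c + 2) (k + 1) = 2 * cf (c + 1) (k + 1) - cf c (k + 1) + cf (c + 1) k := by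
  have e1 : (c + 2 + (k + 1)).choose (2 * (k + 1) + 1) =
      ((c + 1 + k + 1) + 1).choose ((2 * k + 2) + 1) := by
    congr 1
    ring
  have e2 : (c + 1 + (k + 1)).choose (2 * (k + 1) + 1) =
      ((c + 1 + k) + 1).choose ((2 * k + 2) + 1) := by
    congr 1
  have e3 : (c + (k + 1)).choose (2 * (k + 1) + 1) = (c + 1 + k).choose ((2 * k + 2) + 1) := by
    congr 1
    ring
  simp only [cf]
  rw [e1, e2, e3, Nat.choose_succ_succ (c + 1 + k + 1), Nat.choose_succ_succ (c + 1 + k) (2 * k + 2),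
    Nat.choose_succ_succ (c + 1 + k) (2 * k + 1)]
  push_cast
  ring

lemma cf_rec0 (c : ℕ) : cf (c + 2) 0 = 2 * cf (c + 1) 0 - cf c 0 := by
  simp only [cf]
  have h : ∀ n : ℕ, (n + 0).choose (2 * 0 + 1) = n := fun n => by
    simp
  rw [h, h, h]
  push_cast
  ring

/-- the sum over a long range -/
lemma sum_ext_range (c M : ℕ) (V : ℤ) (h : c ≤ M) :
    ∑ k ∈ range M, cf c k * V ^ k = ∑ k ∈ range c, cf c k * V ^ k := by
  symm
  apply Finset.sum_subset (Finset.range_mono h)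
  intro k _ hk
  rw [cf_zero c k (by simpa using hk), zero_mul]

lemma y_eq (v : ℤ) : ∀ c : ℕ, Y (v + 1) c = ∑ k ∈ range c, cf c k * (2 * v) ^ k := by
  intro c
  induction c using Nat.twoStepInduction with
  | zero => simp [Y]
  | one => simp [Y, cf]
  | more c ih0 ih1 =>
    have hY : Y (v + 1) (c + 2) = 2 * (v + 1) * Y (v + 1) (c + 1) - Y (v + 1) c := rfl
    rw [hY, ih0, ih1, ← sum_ext_range c (c + 2) (2 * v) (by omega)]
    have h1 : 2 * (v + 1) * ∑ k ∈ range (c + 1), cf (c + 1) k * (2 * v) ^ k =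
        2 * ∑ k ∈ range (c + 2), cf (c + 1) k * (2 * v) ^ k +
          2 * v * ∑ k ∈ range (c + 1), cf (c + 1) k * (2 * v) ^ k := by
      rw [sum_ext_range (c + 1) (c + 2) (2 * v) (by omega)]
      ring
    rw [h1, Finset.sum_range_succ' (fun k => cf (c + 2) k * (2 * v) ^ k) (c + 1),
      Finset.sum_range_succ' (fun k => cf (c + 1) k * (2 * v) ^ k) (c + 1),
      Finset.sum_range_succ' (fun k => cf c k * (2 * v) ^ k) (c + 1)]
    have h2 : ∑ k ∈ range (c + 1), cf (c + 2) (k + 1) * (2 * v) ^ (k + 1) =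
        2 * ∑ k ∈ range (c + 1), cf (c + 1) (k + 1) * (2 * v) ^ (k + 1) -
          ∑ k ∈ range (c + 1), cf c (k + 1) * (2 * v) ^ (k + 1) +
          2 * v * ∑ k ∈ range (c + 1), cf (c + 1) k * (2 * v) ^ k := by
      rw [Finset.mul_sum, Finset.mul_sum, ← Finset.sum_sub_distrib, ← Finset.sum_add_distrib]
      refine Finset.sum_congr rfl fun k _ => ?_
      rw [cf_rec]
      ring
    rw [h2, cf_rec0]
    ring

/-- SEA. -/
theorem sea : SeaStmt := by
  intro c v hc
  rw [y_eq, ← Finset.sum_range_reflect]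
  refine Finset.sum_congr rfl fun i hi => ?_
  rw [Finset.mem_range] at hi
  have h1 : cf c (c - 1 - i) = (((2 * c - 1 - i).choose i : ℕ) : ℤ) := by
    rw [cf]
    congr 1
    have e1 : c + (c - 1 - i) = 2 * c - 1 - i := by omega
    rw [e1]
    apply Nat.choose_symm_of_eq_add
    omega
  rw [h1]

end Pool.Agent.NP9.H26
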